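import Mathlib
import Pool.Agent.H588R3.BR.Theta4

set_option autoImplicit false

/-!
# Uniqueness of the 2-dependent 3-colouring is equivalent to uniqueness of the 1-dependent
4-colouring
-/

namespace Pool.Agent.Results.MP_341645_pr.EquivFourColors

open MeasureTheory ProbabilityTheory Pool.Agent.H588R3

/-- The space of laws of stationary 2-dependent 3-colourings of the integers, with the weak
topology. -/
abbrev Laws3 : Set (ProbabilityMeasure (ℤ → Fin 3)) := TC.Laws

/-- The space of laws of stationary 1-dependent 4-colourings of the integers, with the weak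
topology. -/
abbrev Laws4 : Set (ProbabilityMeasure (ℤ → Fin 4)) := FC.Laws

/-- The probability that the 3-colouring with law `ν` shows the word `w` at the sites
`0, 1, …, |w| - 1`. -/
noncomputable def wordProb3 (ν : Laws3) (w : List (Fin 3)) : ℝ :=
  ((ν : ProbabilityMeasure (ℤ → Fin 3)) : Measure (ℤ → Fin 3)).real
    {x | ∀ i : Fin w.length, x ((i : ℕ) : ℤ) = w.get i}

/-- The probability that the 4-colouring with law `μ` shows the word `w` at the sites
`0, 1, …, |w| - 1`. -/
noncomputable def wordProb4 (μ : Laws4) (w : List (Fin 4)) : ℝ :=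
  ((μ : ProbabilityMeasure (ℤ → Fin 4)) : Measure (ℤ → Fin 4)).real
    {x | ∀ i : Fin w.length, x ((i : ℕ) : ℤ) = w.get i}

theorem wordProb4_eq (μ : Laws4) (w : List (Fin 4)) :
    wordProb4 μ w = FC.wp ((μ : ProbabilityMeasure (ℤ → Fin 4)) : Measure (ℤ → Fin 4)) w := by
  unfold wordProb4 FC.wp
  congr 1
  ext x
  show (∀ i : Fin w.length, x ((i : ℕ) : ℤ) = w.get i) ↔ FC.win x 0 w.length = w
  constructor
  · intro h
    apply List.ext_getElem
    · rw [FC.win_length]
    · intro i h1 h2
      rw [FC.win_getElem, zero_add]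
      exact h ⟨i, h2⟩
  · intro h i
    have h1 : (i : ℕ) < (FC.win x 0 w.length).length := by rw [FC.win_length]; exact i.2
    have h2 := FC.win_getElem x 0 w.length i h1
    rw [zero_add] at h2
    rw [← h2]
    have : ∀ (l : List (Fin 4)) (hl : (i : ℕ) < l.length), l = w → l[(i : ℕ)] = w.get i := by
      rintro l hl rfl
      rfl
    exact this _ h1 h

theorem wordProb3_eq (ν : Laws3) (w : List (Fin 3)) : wordProb3 ν w = (TC.toWL ν).1 w := by
  show _ = TC.wp _ w
  unfold wordProb3 TC.wp
  congr 1
  ext x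
  show (∀ i : Fin w.length, x ((i : ℕ) : ℤ) = w.get i) ↔ TC.win x 0 w.length = w
  constructor
  · intro h
    apply List.ext_getElem
    · rw [TC.win_length]
    · intro i h1 h2
      rw [TC.win_getElem, zero_add]
      exact h ⟨i, h2⟩
  · intro h i
    have h1 : (i : ℕ) < (TC.win x 0 w.length).length := by rw [TC.win_length]; exact i.2
    have h2 := TC.win_getElem x 0 w.length i h1
    rw [zero_add] at h2
    rw [← h2]
    have : ∀ (l : List (Fin 3)) (hl : (i : ℕ) < l.length), l = w → l[(i : ℕ)] = w.get i := by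
      rintro l hl rfl
      rfl
    exact this _ h1 h

theorem wordProb4_theta (a : Fin 4) (ν : Laws3) (w : List (Fin 4)) :
    wordProb4 ((BR.lawsHomeo a).symm ν) w = BR.P4 a (TC.toWL ν).1 w := by
  rw [wordProb4_eq]
  show FC.wp ((FC.toPM ⟨BR.P4 a (TC.toWL ν).1, _⟩ : ProbabilityMeasure (ℤ → Fin 4)) :
    Measure (ℤ → Fin 4)) w = _
  rw [FC.wp_toPM]

theorem P4_free (a : Fin 4) (Q : List (Fin 3) → ℝ) {w : List (Fin 3)} (h0 : w ≠ [])
    (hw : List.IsChain (· ≠ ·) w) :
    BR.P4 a Q (w.map a.succAbove) =
      (∑ i ∈ Finset.range w.length, Q (w.eraseIdx i)) / 2 ^ (w.length + 1) := by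
  unfold BR.P4
  rw [BR.map_equiv]
  have h1 : BR.SA Q (w.map some) [] = BR.D Q w := by
    have := BR.SA_map Q [] w []
    rw [List.append_nil, List.nil_append] at this
    rw [this]
    rfl
  rw [h1, BR.D_proper Q h0 hw, TC.sdel_eq_sum, List.length_map]

/-- **The two uniqueness problems are equivalent.**  For every colour `a` of four, there is a
homeomorphism `Θ` from the space of laws of stationary 2-dependent 3-colourings onto the space of
laws of stationary 1-dependent 4-colourings.  If `Q` and `P` are the word probabilities of `ν` and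
`Θ ν`, then `P(w) = 2 ^ (-|w| - 1) ∑ᵢ Q(w without its i-th letter)` for proper words `w` in the
three colours different from `a`, and `Q(w) = 2 ^ (|w| + 1) (P(w) - 2 P(a w))`.  Hence there is
exactly one stationary 2-dependent 3-colouring if and only if there is exactly one stationary
1-dependent 4-colouring. -/
theorem result :
    (∀ a : Fin 4, ∃ Θ : Laws3 ≃ₜ Laws4, ∀ ν : Laws3,
      (∀ w : List (Fin 3), w ≠ [] → List.IsChain (· ≠ ·) w →
        wordProb4 (Θ ν) (w.map a.succAbove) =
          (∑ i ∈ Finset.range w.length, wordProb3 ν (w.eraseIdx i)) / 2 ^ (w.length + 1)) ∧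
      (∀ w : List (Fin 3), wordProb3 ν w = 2 ^ (w.length + 1) *
        (wordProb4 (Θ ν) (w.map a.succAbove) -
          2 * wordProb4 (Θ ν) (a :: w.map a.succAbove)))) ∧
    ((∀ ν ν' : Laws3, ν = ν') ↔ ∀ μ μ' : Laws4, μ = μ') := by
  refine ⟨fun a => ⟨(BR.lawsHomeo a).symm, fun ν => ⟨?_, ?_⟩⟩, ?_, ?_⟩
  · intro w h0 hw
    rw [wordProb4_theta, P4_free a _ h0 hw]
    simp only [wordProb3_eq]
  · intro w
    rw [wordProb4_theta, wordProb4_theta, wordProb3_eq]
    exact (BR.P4_inv a (TC.toWL ν).2 w).symm
  · intro h μ μ'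
    exact (BR.lawsHomeo 0).injective (h _ _)
  · intro h ν ν'
    exact (BR.lawsHomeo 0).symm.injective (h _ _)

end Pool.Agent.Results.MP_341645_pr.EquivFourColors
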