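import Mathlib
import Pool.Agent.H588R3.TC.Semi

set_option autoImplicit false

/-!
# The insertion flow on the laws of stationary 2-dependent 3-colourings of the integers
-/

namespace Pool.Agent.Results.MP_341645_pr.InsertionFlow

open MeasureTheory ProbabilityTheory Pool.Agent.H588R3.TC

/-- The probability that the colouring with law `μ` shows the word `w` at the sites
`0, 1, …, |w| - 1`. -/
noncomputable def wordProb (μ : Laws) (w : List (Fin 3)) : ℝ :=
  ((μ : ProbabilityMeasure (ℤ → Fin 3)) : Measure (ℤ → Fin 3)).real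
    {x | ∀ i : Fin w.length, x ((i : ℕ) : ℤ) = w.get i}

theorem wordProb_eq (μ : Laws) (w : List (Fin 3)) : wordProb μ w = (toWL μ).1 w := by
  show _ = wp _ w
  unfold wordProb wp
  congr 1
  ext x
  show (∀ i : Fin w.length, x ((i : ℕ) : ℤ) = w.get i) ↔ win x 0 w.length = w
  constructor
  · intro h
    apply List.ext_getElem
    · rw [win_length]
    · intro i h1 h2
      rw [win_getElem, zero_add]
      exact h ⟨i, h2⟩
  · intro h i
    have h1 : (i : ℕ) < (win x 0 w.length).length := by rw [win_length]; exact i.2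
    have h2 := win_getElem x 0 w.length i h1
    rw [zero_add] at h2
    rw [← h2]
    have : ∀ (l : List (Fin 3)) (hl : (i : ℕ) < l.length), l = w → l[(i : ℕ)] = w.get i := by
      rintro l hl rfl
      rfl
    exact this _ h1 h

/-- The insertion flow on laws. -/
noncomputable def Phi (u : unitInterval) (μ : Laws) : Laws := lawHomeo.symm (flW u (lawHomeo μ))

theorem wordProb_Phi (u : unitInterval) (μ : Laws) (w : List (Fin 3)) :
    wordProb (Phi u μ) w = fl (toWL μ).1 u w := by
  rw [wordProb_eq]
  have : toWL (Phi u μ) = flW u (toWL μ) := by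
    show lawHomeo (lawHomeo.symm (flW u (lawHomeo μ))) = _
    rw [Homeomorph.apply_symm_apply]
    rfl
  rw [this]
  rfl

/-- The Holroyd-Liggett law. -/
noncomputable def HL : Laws := lawHomeo.symm hlW

theorem toWL_HL : toWL HL = hlW := by
  show lawHomeo (lawHomeo.symm hlW) = hlW
  rw [Homeomorph.apply_symm_apply]

theorem wordProb_HL (w : List (Fin 3)) : wordProb HL w = hl w := by
  rw [wordProb_eq, toWL_HL]
  rfl

theorem continuous_Phi : Continuous (fun p : unitInterval × Laws => Phi p.1 p.2) :=
  lawHomeo.symm.continuous.comp (continuous_flW.comp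
    (continuous_fst.prodMk (lawHomeo.continuous.comp continuous_snd)))

theorem Phi_zero (μ : Laws) : Phi 0 μ = HL := by
  unfold Phi HL
  rw [flW_zero]

theorem Phi_one (μ : Laws) : Phi 1 μ = μ := by
  unfold Phi
  rw [flW_one, Homeomorph.symm_apply_apply]

theorem Phi_Phi (u v : unitInterval) (μ : Laws) : Phi u (Phi v μ) = Phi (u * v) μ := by
  unfold Phi
  rw [Homeomorph.apply_symm_apply]
  congr 1
  apply Subtype.ext
  show fl (fl (lawHomeo μ).1 (v : ℝ)) (u : ℝ) = fl (lawHomeo μ).1 ((u * v : unitInterval) : ℝ)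
  rw [fl_fl (lawHomeo μ).2 v.2.1 v.2.2 u.2.1 u.2.2]
  congr 1
  rw [mul_comm]
  rfl

theorem Phi_injective (μ : Laws) (hμ : μ ≠ HL) : Function.Injective (fun u => Phi u μ) := by
  intro u v h
  have h1 : flW u (lawHomeo μ) = flW v (lawHomeo μ) := lawHomeo.symm.injective h
  have h2 : fl (lawHomeo μ).1 u = fl (lawHomeo μ).1 v := congrArg Subtype.val h1
  apply Subtype.ext
  refine fl_inj (lawHomeo μ).2 ?_ u.2.1 v.2.1 h2
  intro h3
  apply hμ
  have h4 : lawHomeo μ = hlW := Subtype.ext h3
  unfold HL
  rw [← h4, Homeomorph.symm_apply_apply]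

theorem mk_laws_le : Cardinal.mk Laws ≤ Cardinal.continuum := by
  have h1 : Function.Injective (fun (μ : Laws) (w : List (Fin 3)) => (toWL μ).1 w) := by
    intro μ ν h
    have : toWL μ = toWL ν := Subtype.ext h
    exact lawHomeo.injective this
  have h2 := Cardinal.mk_le_of_injective h1
  refine h2.trans ?_
  rw [← Cardinal.power_def, Cardinal.mk_real]
  have h3 : Cardinal.mk (List (Fin 3)) ≤ Cardinal.aleph0 := Cardinal.mk_le_aleph0
  calc Cardinal.continuum ^ Cardinal.mk (List (Fin 3))
      ≤ Cardinal.continuum ^ Cardinal.aleph0 :=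
        Cardinal.power_le_power_left Cardinal.continuum_ne_zero h3
    _ = Cardinal.continuum := Cardinal.continuum_power_aleph0

theorem mk_laws_ge (μ : Laws) (hμ : μ ≠ HL) : Cardinal.continuum ≤ Cardinal.mk Laws := by
  have h1 := Cardinal.mk_le_of_injective (Phi_injective μ hμ)
  have h2 : Cardinal.mk unitInterval = Cardinal.continuum := Cardinal.mk_Icc_real zero_lt_one
  rwa [h2] at h1

/-- **The insertion flow.**  Let `Laws` be the space of laws of stationary 2-dependent
3-colourings of the integers, with the weak topology.  There is a law `ν` in it (the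
Holroyd-Liggett colouring, characterised by its deletion recursion) and a continuous action `Φ` of
the multiplicative monoid `[0, 1]` on `Laws` with `Φ 1 = id` and `Φ 0 = ν`, such that for
`μ ≠ ν` the laws `Φ u μ` are pairwise different; `Φ u μ` dominates `(1 - u) ^ (|w| + 2)` times
`ν` on every word `w`, and the first deviation of `μ` from `ν` is multiplied by `u ^ (n + 2)`.
Consequently either there is exactly one law or there are exactly continuum many. -/
theorem result :
    ∃ ν : Laws,
      (∀ w : List (Fin 3), w ≠ [] → List.IsChain (· ≠ ·) w →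
        ((w.length : ℝ) + 2) * wordProb ν w =
          ∑ i ∈ Finset.range w.length, wordProb ν (w.eraseIdx i)) ∧
      (∃ Φ : unitInterval → Laws → Laws,
        Continuous (fun p : unitInterval × Laws => Φ p.1 p.2) ∧
        (∀ μ, Φ 0 μ = ν) ∧ (∀ μ, Φ 1 μ = μ) ∧ (∀ u v μ, Φ u (Φ v μ) = Φ (u * v) μ) ∧
        (∀ μ, μ ≠ ν → Function.Injective (fun u => Φ u μ)) ∧
        (∀ (u : unitInterval) (μ : Laws) (w : List (Fin 3)),
          (1 - (u : ℝ)) ^ (w.length + 2) * wordProb ν w ≤ wordProb (Φ u μ) w) ∧
        (∀ (u : unitInterval) (μ : Laws) (n : ℕ),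
          (∀ w : List (Fin 3), w.length < n → wordProb μ w = wordProb ν w) →
          ∀ w : List (Fin 3), w.length = n →
            wordProb (Φ u μ) w - wordProb ν w =
              (u : ℝ) ^ (n + 2) * (wordProb μ w - wordProb ν w))) ∧
      ((∀ μ : Laws, μ = ν) ∨ Cardinal.mk Laws = Cardinal.continuum) := by
  refine ⟨HL, ?_, ⟨Phi, continuous_Phi, Phi_zero, Phi_one, Phi_Phi, Phi_injective, ?_, ?_⟩, ?_⟩
  · intro w hw hp
    simp only [wordProb_HL]
    rw [hl_rec hw hp, sdel_eq_sum]
  · intro u μ w
    rw [wordProb_HL, wordProb_Phi]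
    exact fl_ge (toWL μ).2 u.2.1 u.2.2 w
  · intro u μ n h w hw
    rw [wordProb_HL, wordProb_Phi, wordProb_eq]
    apply fl_dev (toWL μ).2 _ w hw
    intro w' hw'
    rw [← wordProb_eq, h w' hw', wordProb_HL]
  · by_cases h : ∀ μ : Laws, μ = HL
    · exact Or.inl h
    · right
      push Not at h
      obtain ⟨μ, hμ⟩ := h
      exact le_antisymm mk_laws_le (mk_laws_ge μ hμ)

end Pool.Agent.Results.MP_341645_pr.InsertionFlow
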